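import Pool.Agent.K.MP_894816_co.C6

open Pool.Agent.P.MP_894816_co

theorem Pool.Agent.Results.MP_894816_co.Exact.result :
    ∀ n : ℕ, 1 ≤ n → IsLeast {k | SortsIn n k}
      (if n = 1 then 0 else if n = 6 then 23 else ⌈(((2 * n).choose 2 : ℕ) : ℚ) / 3⌉₊) := by
  intro n h1
  split_ifs with e1 e6
  · subst e1
    exact ⟨⟨fun _ p => p.1, funext fun p => Subsingleton.elim _ _, rfl, fun t ht => by omega⟩,
      fun _ _ => Nat.zero_le _⟩
  · subst e6
    have hl : ∀ j, SortsIn 6 j → 23 ≤ j := fun j hj => by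
      have := lower (by omega) hj
      by_contra hc
      exact not_six ((show j = 22 by omega) ▸ hj)
    obtain ⟨k, hk, hs⟩ := sorts_of_good good_six
    exact ⟨le_antisymm hk (hl k hs) ▸ hs, hl⟩
  obtain ⟨c, h2, h3⟩ := good_all n (by omega) e6
  obtain ⟨k, hk, hs⟩ := sorts_of_good h2
  have e : (2 * n).choose 2 = n * (2 * n - 1) := by
    rw [Nat.choose_two_right, mul_assoc, Nat.mul_div_cancel_left _ two_pos]
  have hl : ∀ j, SortsIn n j → ⌈(((2 * n).choose 2 : ℕ) : ℚ) / 3⌉₊ ≤ j := fun j hj => by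
    have h4 : ((n * (2 * n - 1) : ℕ) : ℚ) ≤ 3 * j := by exact_mod_cast lower (by omega) hj
    rw [e, Nat.ceil_le]; linarith
  have hu : c ≤ ⌈(((2 * n).choose 2 : ℕ) : ℚ) / 3⌉₊ := by
    have h4 := Nat.le_ceil ((((2 * n).choose 2 : ℕ) : ℚ) / 3)
    generalize ⌈(((2 * n).choose 2 : ℕ) : ℚ) / 3⌉₊ = u at h4 ⊢
    have h5 : n * (2 * n - 1) ≤ 3 * u := by
      rw [← e]; exact_mod_cast (by linarith : (((2 * n).choose 2 : ℕ) : ℚ) ≤ 3 * (u : ℚ))
    omega
  exact ⟨le_antisymm (hk.trans hu) (hl k hs) ▸ hs, hl⟩
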